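import Pool.Agent.P8H18.RR.Stm3
import Pool.Agent.P8H75.RRP.Expo
import Pool.Agent.P8H45.RR.Pri

/-! # Package EXP2 of project DS (helper11), after `Pool.Agent.P8H75.RRP.expo` (helper75) -/

set_option autoImplicit false

namespace Pool.Agent.P8H11.DS

open Pool.Agent.P8H18.RR Pool.Agent.P8H18.DS Pool.Agent.P8H75.RRP Finset

/-- the prime powers are few -/
theorem sq_log (L : ℕ) (hL : 1 ≤ L) :
    2 * √((10 ^ (2 * L + 1) : ℕ) : ℝ) * Real.log ((10 ^ (2 * L + 1) : ℕ) : ℝ) ≤
      54 * (10 : ℝ) ^ (2 * L + 1) * Real.exp (-(√(L : ℝ))) := by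
  have hL1 : (1 : ℝ) ≤ L := by exact_mod_cast hL
  set s : ℝ := √(L : ℝ) with hs
  have hs1 : 1 ≤ s := by rw [hs]; exact Real.one_le_sqrt.2 hL1
  have hss : s * s = L := Real.mul_self_sqrt (by linarith)
  have hsL : s ≤ L := by nlinarith
  have hcast : ((10 ^ (2 * L + 1) : ℕ) : ℝ) = (10 : ℝ) ^ (2 * L + 1) := by push_cast; rfl
  rw [hcast]
  set N : ℝ := (10 : ℝ) ^ (2 * L + 1) with hN
  have hN0 : 0 < N := by positivity
  set r : ℝ := √N with hr
  have hrr : r * r = N := Real.mul_self_sqrt hN0.le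
  have hr0 : 0 < r := Real.sqrt_pos.2 hN0
  have hlog : Real.log N ≤ 27 * L := by
    rw [hN, Real.log_pow]
    push_cast
    have := log_ten_hi
    nlinarith
  have hrexp : (L : ℝ) ≤ r * Real.exp (-s) := by
    have h1 : Real.exp (2 * L + 1) ≤ r := by
      rw [hr]
      refine Real.le_sqrt_of_sq_le ?_
      have e1 : Real.exp (2 * (L : ℝ) + 1) ^ 2 = Real.exp (2 * (2 * (L : ℝ) + 1)) := by
        rw [← Real.exp_nat_mul]; norm_num
      have e2 : N = Real.exp (((2 * L + 1 : ℕ) : ℝ) * Real.log 10) := by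
        rw [Real.exp_nat_mul, Real.exp_log (by norm_num)]
      rw [e1, e2]
      refine Real.exp_le_exp.2 ?_
      push_cast
      have := log_ten_lo
      nlinarith
    have h2 : Real.exp L ≤ Real.exp (2 * L + 1) * Real.exp (-s) := by
      rw [← Real.exp_add]; exact Real.exp_le_exp.2 (by linarith)
    have h3 : (L : ℝ) ≤ Real.exp L := by
      have := Real.add_one_le_exp (L : ℝ)
      linarith
    calc (L : ℝ) ≤ Real.exp L := h3
      _ ≤ Real.exp (2 * L + 1) * Real.exp (-s) := h2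
      _ ≤ r * Real.exp (-s) := mul_le_mul_of_nonneg_right h1 (Real.exp_pos _).le
  calc 2 * r * Real.log N ≤ 2 * r * (27 * L) := mul_le_mul_of_nonneg_left hlog (by positivity)
    _ = 54 * r * L := by ring
    _ ≤ 54 * r * (r * Real.exp (-s)) := mul_le_mul_of_nonneg_left hrexp (by positivity)
    _ = 54 * N * Real.exp (-s) := by rw [← hrr]; ring

/-- `TH` from `SL` and `CP` -/
theorem comb (L x : ℕ) (hL : 1 ≤ L) (hx : x ≤ 10 ^ (2 * L + 1)) (α A B : ℝ) (hA : ‖SL x α‖ ≤ A)
    (hB : ‖CP x α‖ ≤ B) :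
    ‖TH x α‖ ≤ A + 54 * (10 : ℝ) ^ (2 * L + 1) * Real.exp (-(√(L : ℝ))) + 5 / 2 * B := by
  have h := Pool.Agent.P8H45.RR.diff_le α x (10 ^ (2 * L + 1)) hx (Nat.one_le_pow _ _ (by norm_num))
  have e : ∑ p ∈ (Icc 1 x).filter Nat.Prime, ((Real.log p : ℝ) : ℂ) * ee ((p : ℝ) * α) =
      SL x α - (SL x α - ∑ n ∈ Icc 1 x, Pool.Agent.P8H45.RR.tm α n) := by
    rw [sum_filter, sub_sub_cancel]
    rfl
  have h1 : ‖∑ p ∈ (Icc 1 x).filter Nat.Prime, ((Real.log p : ℝ) : ℂ) * ee ((p : ℝ) * α)‖ ≤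
      A + 54 * (10 : ℝ) ^ (2 * L + 1) * Real.exp (-(√(L : ℝ))) := by
    rw [e]
    exact (norm_sub_le _ _).trans (add_le_add hA (h.trans (sq_log L hL)))
  have h2 : ‖(5 / 2 : ℂ) * CP x α‖ ≤ 5 / 2 * B := by
    rw [norm_mul]
    have : ‖(5 / 2 : ℂ)‖ = 5 / 2 := by
      rw [norm_div]; norm_num
    rw [this]
    exact mul_le_mul_of_nonneg_left hB (by norm_num)
  unfold TH
  exact (norm_sub_le _ _).trans (add_le_add h1 h2)

/-- the frequency is near a multiple of `1/10` if all positions but `0` are large -/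
theorem tail (U : Finset ℕ) (h : ℕ → ℤ) (H i1 : ℕ) (hh : ∀ i ∈ U, |h i| ≤ (H : ℤ))
    (hi : ∀ i ∈ U, i ≠ 0 → i1 ≤ i) :
    |fr U h - ((if 0 ∈ U then h 0 else 0 : ℤ) : ℝ) / 10| ≤ U.card * (H / 10 ^ (i1 + 1)) := by
  have e : fr U h - ((if 0 ∈ U then h 0 else 0 : ℤ) : ℝ) / 10 =
      ∑ i ∈ U.erase 0, (h i : ℝ) / 10 ^ (i + 1) := by
    unfold fr
    by_cases h0 : 0 ∈ U
    · rw [if_pos h0, ← add_sum_erase U _ h0]
      norm_num
    · rw [if_neg h0, erase_eq_of_notMem h0]
      norm_num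
  rw [e]
  have h1 : ∀ i ∈ U.erase 0, |(h i : ℝ) / 10 ^ (i + 1)| ≤ (H : ℝ) / 10 ^ (i1 + 1) := by
    intro i hiU
    have hiU' := mem_of_mem_erase hiU
    have hne := ne_of_mem_erase hiU
    have h2 : |(h i : ℝ)| ≤ H := by exact_mod_cast hh i hiU'
    rw [abs_div, abs_of_pos (show (0 : ℝ) < 10 ^ (i + 1) by positivity)]
    refine div_le_div₀ (Nat.cast_nonneg _) h2 (by positivity) ?_
    exact pow_le_pow_right₀ (by norm_num) (by have := hi i hiU' hne; omega)
  refine (abs_sum_le_sum_abs _ _).trans ((sum_le_sum h1).trans ?_)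
  rw [sum_const, nsmul_eq_mul]
  refine mul_le_mul_of_nonneg_right ?_ (by positivity)
  exact_mod_cast card_erase_le

/-- a fraction near a multiple of `1/10` -/
theorem dvd_ten (q : ℕ) (a z : ℤ) (hq : 1 ≤ q) (hcop : IsCoprime a (q : ℤ))
    (h : |(z : ℝ) / 10 - (a : ℝ) / q| < 1 / (10 * q)) : q ∣ 10 := by
  have hq0 : (0 : ℝ) < q := by exact_mod_cast hq
  have e : (z : ℝ) / 10 - (a : ℝ) / q = ((z * q - 10 * a : ℤ) : ℝ) / (10 * q) := by
    push_cast
    field_simp
  rw [e, abs_div, abs_of_pos (show (0 : ℝ) < 10 * q by positivity)] at h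
  have h1 : |((z * q - 10 * a : ℤ) : ℝ)| < 1 := by
    have := (div_lt_div_iff_of_pos_right (show (0 : ℝ) < 10 * q by positivity)).1 h
    exact this
  have h2 : z * q - 10 * a = 0 := by
    have : |z * q - 10 * a| < 1 := by exact_mod_cast h1
    exact Int.abs_lt_one_iff.1 this
  have h3 : (q : ℤ) ∣ 10 * a := ⟨z, by linarith⟩
  have h4 : (q : ℤ) ∣ 10 := hcop.symm.dvd_of_dvd_mul_right h3
  exact_mod_cast h4

/-- EXP2 -/
theorem exp2 : S_EXP2A := by
  intro hM hG hCP hT
  obtain ⟨c0, C0, hc0, hC0, hmaj⟩ := hM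
  obtain ⟨ct, Ct, hct, hCt, hth⟩ := hT
  set c1 : ℝ := min (min c0 ct) (1 / 8) with hc1
  have hc1p : 0 < c1 := lt_min (lt_min hc0 hct) (by norm_num)
  have hc10 : c1 ≤ c0 := (min_le_left _ _).trans (min_le_left _ _)
  have hc1t : c1 ≤ ct := (min_le_left _ _).trans (min_le_right _ _)
  have hc18 : c1 ≤ 1 / 8 := min_le_right _ _
  obtain ⟨C1, hC1, hmin⟩ := minor c1 hc1p (by linarith)
  obtain ⟨L0, hL0'⟩ := exists_nat_ge ((3 / c1) ^ 2)
  refine ⟨c1 / 4, C0 + C1 + Ct + 94, by positivity, by positivity, max 16 L0, ?_⟩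
  intro L hL U h hU hcard hh hndiv hex x hx
  have hLn : 16 ≤ L := (le_max_left _ _).trans hL
  have hL16 : (16 : ℝ) ≤ L := by exact_mod_cast hLn
  have hL0 : (0 : ℝ) ≤ L := by linarith
  have hLL0 : (L0 : ℝ) ≤ L := by exact_mod_cast (le_max_right 16 L0).trans hL
  set s : ℝ := √(L : ℝ) with hs
  have hss : s * s = L := Real.mul_self_sqrt hL0
  have hs0 : 0 ≤ s := Real.sqrt_nonneg _
  have hs4 : 4 ≤ s := by
    rw [hs]
    exact Real.le_sqrt_of_sq_le (by linarith)
  have hsL : s ≤ L := by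
    have := le_mul_of_one_le_left hs0 (show (1 : ℝ) ≤ s by linarith)
    linarith
  have hcs : 3 ≤ c1 * s := by
    have h1 : 3 / c1 ≤ s := by
      rw [hs]
      exact Real.le_sqrt_of_sq_le (by linarith)
    rwa [div_le_iff₀ hc1p, mul_comm] at h1
  set N : ℝ := 10 ^ (2 * L + 1) with hN
  have hN0 : 0 < N := by positivity
  set w : ℝ := Real.exp (-(c1 / 4 * s)) with hw
  have hw0 : 0 < w := Real.exp_pos _
  have hCP' : ∀ B : ℝ, ‖CP x (fr U h)‖ ≤ B → B ≤ 16 * (N * w) → ∀ A : ℝ, ‖SL x (fr U h)‖ ≤ A →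
      A ≤ (C0 + C1) * (N * w) → ‖TH x (fr U h)‖ ≤ (C0 + C1 + Ct + 94) * N * w := by
    intro B hB1 hB2 A hA1 hA2
    have h1 := comb L x (by omega) hx (fr U h) A B hA1 hB1
    have h2 : Real.exp (-(√(L : ℝ))) ≤ w := by
      rw [hw, ← hs]
      refine Real.exp_le_exp.2 ?_
      have : c1 / 4 * s ≤ 1 * s := mul_le_mul_of_nonneg_right (by linarith) hs0
      linarith
    have h3 : 54 * (10 : ℝ) ^ (2 * L + 1) * Real.exp (-(√(L : ℝ))) ≤ 54 * (N * w) := by
      rw [← hN, mul_assoc]
      exact mul_le_mul_of_nonneg_left (mul_le_mul_of_nonneg_left h2 hN0.le) (by norm_num)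
    have h4 : 0 ≤ Ct * (N * w) := by positivity
    have e1 : (C0 + C1 + Ct + 94) * N * w =
        (C0 + C1) * (N * w) + Ct * (N * w) + 94 * (N * w) := by ring
    rw [e1]
    linarith
  rcases Nat.eq_zero_or_pos x with hx0 | hx0
  · have h1 : SL x (fr U h) = 0 := by
      rw [hx0]; unfold SL; simp
    have h2 : CP x (fr U h) = 0 := by
      rw [hx0]; unfold CP; simp
    refine hCP' 0 (by rw [h2, norm_zero]) (by positivity) 0 (by rw [h1, norm_zero]) (by positivity)
  set E : ℝ := Real.exp (c1 * s) with hE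
  have hE11 : 11 ≤ E := by
    have h1 : Real.exp 3 ≤ E := Real.exp_le_exp.2 hcs
    have h2 : Real.exp 3 = Real.exp 1 ^ 3 := by rw [← Real.exp_nat_mul]; norm_num
    have h3 := Real.exp_one_gt_d9
    have h4 : (2.7 : ℝ) ^ 3 ≤ Real.exp 1 ^ 3 := pow_le_pow_left₀ (by norm_num) (by linarith) 3
    rw [h2] at h1
    norm_num at h4
    linarith
  have hE1 : 1 ≤ E := by linarith
  have hE0 : 0 < E := by linarith
  have hE2N : 40 * E ^ 2 ≤ N := by
    have h1 : N = Real.exp (((2 * L + 1 : ℕ) : ℝ) * Real.log 10) := by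
      rw [Real.exp_nat_mul, Real.exp_log (by norm_num)]
    have h2 : E ^ 2 = Real.exp (2 * (c1 * s)) := by
      rw [hE, ← Real.exp_nat_mul]; norm_num
    have h3 : (40 : ℝ) ≤ Real.exp 4 := by
      have h2 : Real.exp 4 = Real.exp 1 ^ 4 := by rw [← Real.exp_nat_mul]; norm_num
      have h3 := Real.exp_one_gt_d9
      have h4 : (2.7 : ℝ) ^ 4 ≤ Real.exp 1 ^ 4 := pow_le_pow_left₀ (by norm_num) (by linarith) 4
      rw [h2]
      norm_num at h4
      linarith
    calc 40 * E ^ 2 ≤ Real.exp 4 * Real.exp (2 * (c1 * s)) := by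
          rw [h2]; exact mul_le_mul_of_nonneg_right h3 (Real.exp_pos _).le
      _ = Real.exp (4 + 2 * (c1 * s)) := by rw [Real.exp_add]
      _ ≤ N := by
          rw [h1]
          refine Real.exp_le_exp.2 ?_
          push_cast
          have a1 : (2 * (L : ℝ) + 1) * 2 ≤ (2 * (L : ℝ) + 1) * Real.log 10 :=
            mul_le_mul_of_nonneg_left log_ten_lo (by positivity)
          have a2 : c1 * s ≤ 1 / 8 * s := mul_le_mul_of_nonneg_right hc18 hs0
          linarith
  have hEE : E ≤ E ^ 2 := by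
    rw [sq]
    exact le_mul_of_one_le_left hE0.le hE1
  have hE2 : E ^ 2 ≤ N := by linarith
  have hENw : E ≤ N * w := by
    have h1 : E * Real.exp (c1 / 4 * s) ≤ E ^ 2 := by
      rw [sq]
      refine mul_le_mul_of_nonneg_left ?_ hE0.le
      refine Real.exp_le_exp.2 ?_
      linarith
    have h2 : E * Real.exp (c1 / 4 * s) ≤ N := h1.trans hE2
    have h3 : Real.exp (c1 / 4 * s) * w = 1 := by
      rw [hw, ← Real.exp_add]; simp
    calc E = E * (Real.exp (c1 / 4 * s) * w) := by rw [h3, mul_one]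
      _ = E * Real.exp (c1 / 4 * s) * w := by ring
      _ ≤ N * w := mul_le_mul_of_nonneg_right h2 hw0.le
  set Q : ℕ := ⌊E⌋₊ with hQ
  have hQ11 : 11 ≤ Q := Nat.le_floor (by exact_mod_cast hE11)
  have hQ1 : 1 ≤ Q := by omega
  have hQE : (Q : ℝ) ≤ E := Nat.floor_le hE0.le
  have hEQ : E < Q + 1 := Nat.lt_floor_add_one E
  have hQ1' : (1 : ℝ) ≤ Q := by exact_mod_cast hQ1
  have hEQ2 : E / 2 ≤ Q := by linarith
  have hQN : 40 * (Q : ℝ) ≤ N := by linarith
  set n : ℕ := 10 ^ (2 * L + 1) / Q with hn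
  have hEN : E ≤ N := hEE.trans hE2
  have hn1 : 0 < n := by
    refine Nat.div_pos ?_ (by omega)
    have : (Q : ℝ) ≤ ((10 ^ (2 * L + 1) : ℕ) : ℝ) := by push_cast; linarith
    exact_mod_cast this
  have hnN : (n : ℝ) ≤ N / Q := by
    rw [hn, hN]
    refine Nat.cast_div_le.trans ?_
    push_cast
    exact le_rfl
  have hnQ : 1 / ((n : ℝ) + 1) ≤ Q / N := by
    have h1 : 10 ^ (2 * L + 1) < Q * (n + 1) := Nat.lt_mul_div_succ _ (by omega)
    have h2 : N < Q * ((n : ℝ) + 1) := by
      rw [hN]; exact_mod_cast h1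
    rw [div_le_div_iff₀ (by positivity) hN0]
    linarith
  obtain ⟨r, hr1, hr2⟩ := Real.exists_rat_abs_sub_le_and_den_le (fr U h) hn1
  set q : ℕ := r.den with hqd
  have hq1 : 1 ≤ q := r.pos
  have hq1' : (1 : ℝ) ≤ q := by exact_mod_cast hq1
  have hcop : IsCoprime r.num (q : ℤ) := Rat.isCoprime_num_den r
  have hrr : (r : ℝ) = (r.num : ℝ) / q := Rat.cast_def r
  rw [hrr] at hr1
  have hr3 : |fr U h - (r.num : ℝ) / q| ≤ Q / N := by
    refine hr1.trans (le_trans ?_ hnQ)
    refine one_div_le_one_div_of_le (by positivity) ?_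
    exact le_mul_of_one_le_right (by positivity) hq1'
  have hr40 : |fr U h - (r.num : ℝ) / q| ≤ 1 / (40 * q) := by
    have e1 : 1 / (((n : ℝ) + 1) * q) = 1 / ((n : ℝ) + 1) * (1 / q) := by
      rw [one_div_mul_one_div]
    have h2 : (Q : ℝ) / N ≤ 1 / 40 := by
      rw [div_le_div_iff₀ hN0 (by norm_num)]
      linarith
    calc |fr U h - (r.num : ℝ) / q| ≤ 1 / (((n : ℝ) + 1) * q) := hr1
      _ = 1 / ((n : ℝ) + 1) * (1 / q) := e1
      _ ≤ 1 / 40 * (1 / q) := mul_le_mul_of_nonneg_right (hnQ.trans h2) (by positivity)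
      _ = 1 / (40 * q) := by rw [one_div_mul_one_div]
  have hr20 : |fr U h - (r.num : ℝ) / q| ≤ 1 / (20 * q) := by
    refine hr40.trans (one_div_le_one_div_of_le (by positivity) (by linarith))
  rcases le_or_gt q Q with hqQ | hqQ
  · -- major arcs
    have hqQ' : (q : ℝ) ≤ Q := by exact_mod_cast hqQ
    set H : ℕ := ⌊Real.exp (c1 / 4 * s)⌋₊ with hH
    have hH1 : 1 ≤ H := by
      refine Nat.le_floor ?_
      have : 1 ≤ Real.exp (c1 / 4 * s) := Real.one_le_exp (by positivity)
      exact_mod_cast this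
    have hHE : (H : ℝ) ≤ Real.exp (c1 / 4 * s) := Nat.floor_le (Real.exp_pos _).le
    set G : ℕ := ⌈c1 * s⌉₊ + 1 with hGd
    have hG1 : c1 * s + 1 ≤ G := by
      rw [hGd]; push_cast
      have := Nat.le_ceil (c1 * s)
      linarith
    have hG2 : (G : ℝ) ≤ c1 * s + 2 := by
      rw [hGd]; push_cast
      have := (Nat.ceil_lt_add_one (show 0 ≤ c1 * s by positivity)).le
      linarith
    have hpow : 4 * E ^ 2 ≤ (10 : ℝ) ^ G := by
      have h1 : (10 : ℝ) ^ G = Real.exp (G * Real.log 10) := by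
        rw [Real.exp_nat_mul, Real.exp_log (by norm_num)]
      have h2 : (4 : ℝ) ≤ Real.exp 2 := by
        have h1 : Real.exp 2 = Real.exp 1 ^ 2 := by rw [← Real.exp_nat_mul]; norm_num
        have h2 := Real.exp_one_gt_d9
        have h4 : (2 : ℝ) ^ 2 ≤ Real.exp 1 ^ 2 :=
          pow_le_pow_left₀ (by norm_num) (by linarith) 2
        rw [h1]
        linarith
      have h3 : 4 * E ^ 2 ≤ Real.exp 2 * Real.exp (2 * (c1 * s)) := by
        have : E ^ 2 = Real.exp (2 * (c1 * s)) := by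
          rw [hE, ← Real.exp_nat_mul]; norm_num
        rw [this]
        exact mul_le_mul_of_nonneg_right h2 (Real.exp_pos _).le
      refine h3.trans ?_
      rw [← Real.exp_add, h1]
      refine Real.exp_le_exp.2 ?_
      have h4 : (G : ℝ) * 2 ≤ G * Real.log 10 :=
        mul_le_mul_of_nonneg_left log_ten_lo (Nat.cast_nonneg _)
      linarith
    have hHE2 : (H : ℝ) ≤ E := by
      refine hHE.trans (Real.exp_le_exp.2 ?_)
      have : 0 ≤ c1 * s := by positivity
      linarith
    have hg1 : 4 * H * Q ≤ 10 ^ G := by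
      have : 4 * (H : ℝ) * Q ≤ (10 : ℝ) ^ G := by
        refine le_trans ?_ hpow
        have h1 : (H : ℝ) * Q ≤ E * E :=
          mul_le_mul hHE2 hQE (by positivity) hE0.le
        have e1 : 4 * (H : ℝ) * Q = 4 * (H * Q) := by ring
        have e2 : 4 * E ^ 2 = 4 * (E * E) := by ring
        rw [e1, e2]
        linarith
      exact_mod_cast this
    have hg2 : 4 * Q ^ 2 ≤ 10 ^ G := by
      have : 4 * (Q : ℝ) ^ 2 ≤ (10 : ℝ) ^ G := by
        refine le_trans ?_ hpow
        have h1 : (Q : ℝ) ^ 2 ≤ E ^ 2 := pow_le_pow_left₀ (by positivity) hQE 2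
        linarith
      exact_mod_cast this
    have hlogL : 1 ≤ Real.log L := by
      rw [Real.le_log_iff_exp_le (by linarith)]
      have := Real.exp_one_lt_d9
      linarith
    have hc : (U.card : ℝ) ≤ c1 / 4 * s := by
      refine hcard.trans ?_
      exact div_le_self (by positivity) hlogL
    have hg3 : (U.card + 1) * (G + 1) + G + 2 ≤ L := by
      have : ((U.card : ℝ) + 1) * (G + 1) + G + 2 ≤ L := by
        have h1 : ((U.card : ℝ) + 1) * (G + 1) ≤ (c1 / 4 * s + 1) * (c1 * s + 3) :=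
          mul_le_mul (by linarith) (by linarith) (by positivity) (by positivity)
        have h2 : c1 * s ≤ 1 / 8 * s := mul_le_mul_of_nonneg_right hc18 hs0
        have h3 : (c1 / 4 * s + 1) * (c1 * s + 3) ≤ (1 / 32 * s + 1) * (1 / 8 * s + 3) :=
          mul_le_mul (by linarith) (by linarith) (by positivity) (by positivity)
        have h4 := num s hs4
        rw [← hss]
        linarith
      exact_mod_cast this
    have hg4 : ∀ i ∈ U, |h i| ≤ (H : ℤ) := by
      intro i hi
      have h1 := hh i hi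
      have h2 : ((h i).natAbs : ℝ) ≤ Real.exp (c1 / 4 * s) := by
        rw [Nat.cast_natAbs]
        push_cast
        exact h1
      have h3 : (h i).natAbs ≤ H := Nat.le_floor h2
      rw [Int.abs_eq_natAbs]
      exact_mod_cast h3
    -- the least position
    obtain ⟨i1, hi1U, hi1a, hi1b, hi1m⟩ : ∃ i1 ∈ U, 1 ≤ i1 ∧ i1 < 2 * L ∧
        ∀ i ∈ U, i ≠ 0 → i1 ≤ i := by
      obtain ⟨i, hiU, hi1, hi2⟩ := hex
      have hne : (U.filter fun i => 1 ≤ i ∧ i < 2 * L).Nonempty :=
        ⟨i, mem_filter.2 ⟨hiU, hi1, hi2⟩⟩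
      have hm := (U.filter fun i => 1 ≤ i ∧ i < 2 * L).min'_mem hne
      rw [mem_filter] at hm
      refine ⟨_, hm.1, hm.2.1, hm.2.2, fun j hj hj0 => ?_⟩
      by_cases hj2 : j < 2 * L
      · exact min'_le _ _ (mem_filter.2 ⟨hj, by omega, hj2⟩)
      · have := hm.2.2
        omega
    rcases le_or_gt (i1 + (U.card + 1) * (G + 1) + G + 2) (2 * L) with hA | hB
    · obtain ⟨d1, d2⟩ := hG i1 L G G H Q U h hH1 hQ1 hU hg4 hndiv hi1U hi1a hA hg1 hg2 r.num q
        hq1 hqQ hcop hr3
      have hsD : s ≤ √((2 * L + 1 : ℕ) : ℝ) := by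
        rw [hs]
        refine Real.sqrt_le_sqrt ?_
        push_cast
        linarith
      have hED : E ≤ Real.exp (c0 * √((2 * L + 1 : ℕ) : ℝ)) := by
        refine Real.exp_le_exp.2 ?_
        exact mul_le_mul hc10 hsD hs0 hc0.le
      have hm := hmaj (2 * L + 1) (by omega) q r.num hq1 d1 d2 hcop (by linarith)
        (fr U h - (r.num : ℝ) / q) (by
          refine hr3.trans ?_
          exact div_le_div_of_nonneg_right (hQE.trans hED) hN0.le) x hx
      have e1 : (r.num : ℝ) / q + (fr U h - (r.num : ℝ) / q) = fr U h := by ring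
      rw [e1] at hm
      refine hCP' _ (hCP x q r.num (fr U h) hq1 d2 hcop hr20) ?_ _ hm ?_
      · linarith
      · have h2 : Real.exp (-(c0 * √((2 * L + 1 : ℕ) : ℝ))) ≤ w := by
          rw [hw]
          refine Real.exp_le_exp.2 ?_
          have h1 : c1 * s ≤ c0 * √((2 * L + 1 : ℕ) : ℝ) := mul_le_mul hc10 hsD hs0 hc0.le
          have h2 : 0 ≤ c1 * s := by positivity
          linarith
        have h3 : C0 * 10 ^ (2 * L + 1) * Real.exp (-(c0 * √((2 * L + 1 : ℕ) : ℝ))) ≤
            C0 * 10 ^ (2 * L + 1) * w := mul_le_mul_of_nonneg_left h2 (by positivity)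
        refine h3.trans ?_
        rw [← hN, mul_assoc, add_mul]
        have : 0 ≤ C1 * (N * w) := by positivity
        linarith
    · -- all positions but `0` are large: the denominator divides `10`
      have hi1L : L < i1 := by omega
      have hq10 : q ∣ 10 := by
        refine dvd_ten q r.num (if 0 ∈ U then h 0 else 0) hq1 hcop ?_
        have h1 := tail U h H i1 hg4 hi1m
        have h2 : (U.card : ℝ) * (H / 10 ^ (i1 + 1)) ≤ 1 / (40 * Q) := by
          have a1 : (U.card : ℝ) ≤ Real.exp (c1 / 4 * s) := by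
            have := Real.add_one_le_exp (c1 / 4 * s)
            linarith
          have a2 : (U.card : ℝ) * H ≤ E := by
            calc (U.card : ℝ) * H ≤ Real.exp (c1 / 4 * s) * Real.exp (c1 / 4 * s) :=
                  mul_le_mul a1 hHE (by positivity) (Real.exp_pos _).le
              _ = Real.exp (c1 / 4 * s + c1 / 4 * s) := (Real.exp_add _ _).symm
              _ ≤ E := Real.exp_le_exp.2 (by
                  have : 0 ≤ c1 * s := by positivity
                  linarith)
          have a3 : (U.card : ℝ) * H * (40 * Q) ≤ 10 ^ (i1 + 1) := by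
            have b1 : (U.card : ℝ) * H * Q ≤ E * E :=
              mul_le_mul a2 hQE (by positivity) hE0.le
            have b2 : (10 : ℝ) ^ (G + 1) ≤ 10 ^ (i1 + 1) := by
              refine pow_le_pow_right₀ (by norm_num) ?_
              omega
            have b3 : (10 : ℝ) ^ (G + 1) = 10 * 10 ^ G := by ring
            calc (U.card : ℝ) * H * (40 * Q) = 40 * ((U.card : ℝ) * H * Q) := by ring
              _ ≤ 40 * (E * E) := by linarith
              _ = 10 * (4 * E ^ 2) := by ring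
              _ ≤ 10 * 10 ^ G := by linarith
              _ = 10 ^ (G + 1) := b3.symm
              _ ≤ _ := b2
          rw [← mul_div_assoc, div_le_div_iff₀ (by positivity) (by positivity), one_mul]
          exact a3
        have h3 : 1 / (40 * (Q : ℝ)) ≤ 1 / (40 * q) :=
          one_div_le_one_div_of_le (by positivity) (by linarith)
        have h4 : |((if 0 ∈ U then h 0 else 0 : ℤ) : ℝ) / 10 - (r.num : ℝ) / q| ≤
            1 / (40 * q) + 1 / (40 * q) := by
          have e1 : ((if 0 ∈ U then h 0 else 0 : ℤ) : ℝ) / 10 - (r.num : ℝ) / q =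
              -(fr U h - ((if 0 ∈ U then h 0 else 0 : ℤ) : ℝ) / 10) +
                (fr U h - (r.num : ℝ) / q) := by ring
          rw [e1]
          refine (abs_add_le _ _).trans (add_le_add ?_ hr40)
          rw [abs_neg]
          exact h1.trans (h2.trans h3)
        refine lt_of_le_of_lt h4 ?_
        have e2 : 1 / (40 * (q : ℝ)) + 1 / (40 * q) = 1 / (20 * q) := by
          field_simp; norm_num
        rw [e2]
        exact one_div_lt_one_div_of_lt (by positivity) (by linarith)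
      have hm := hth L (by omega) q r.num hq1 hq10 (fr U h - (r.num : ℝ) / q) (by
        refine hr3.trans ?_
        rw [← hN]
        refine div_le_div_of_nonneg_right (hQE.trans ?_) hN0.le
        exact Real.exp_le_exp.2 (mul_le_mul_of_nonneg_right hc1t hs0)) x hx
      have e1 : (r.num : ℝ) / q + (fr U h - (r.num : ℝ) / q) = fr U h := by ring
      rw [e1] at hm
      refine hm.trans ?_
      refine mul_le_mul ?_ (Real.exp_le_exp.2 ?_) (Real.exp_pos _).le (by positivity)
      · exact mul_le_mul_of_nonneg_right (by linarith) (by positivity)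
      · have h1 : c1 * s ≤ ct * s := mul_le_mul_of_nonneg_right hc1t hs0
        have h2 : 0 ≤ c1 * s := by positivity
        linarith
  · -- minor arcs
    have hqQ' : E < q := by
      have : ((Q + 1 : ℕ) : ℝ) ≤ q := by exact_mod_cast hqQ
      push_cast at this
      linarith
    have hqn : (q : ℝ) ≤ n := by exact_mod_cast hr2
    have hq2 : (q : ℝ) ≤ N / (E / 2) := by
      refine hqn.trans (hnN.trans ?_)
      exact div_le_div_of_nonneg_left hN0.le (by positivity) hEQ2
    have hα : |fr U h - (r.num : ℝ) / q| ≤ 1 / (q : ℝ) ^ 2 := by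
      refine hr1.trans (one_div_le_one_div_of_le (by positivity) ?_)
      rw [sq]
      exact mul_le_mul_of_nonneg_right (by linarith) (by positivity)
    have hm := hmin L (by omega) q hqQ' hq2 r.num hcop (fr U h) hα x hx0 hx
    have hnd : ¬ q ∣ 10 := by
      intro hd
      have := Nat.le_of_dvd (by norm_num) hd
      omega
    refine hCP' _ (hCP x q r.num (fr U h) hq1 hnd hcop hr20) ?_ _ hm ?_
    · have h1 : N / (E / 2) ≤ 2 * (N * w) := by
        have h2 : 1 / E ≤ w := by
          rw [hE, hw, one_div, ← Real.exp_neg]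
          refine Real.exp_le_exp.2 ?_
          have : 0 ≤ c1 * s := by positivity
          linarith
        have e1 : N / (E / 2) = 2 * (N * (1 / E)) := by field_simp
        rw [e1]
        have := mul_le_mul_of_nonneg_left h2 hN0.le
        linarith
      linarith
    · rw [← hN, mul_assoc, add_mul]
      have : 0 ≤ C0 * (N * w) := by positivity
      linarith

end Pool.Agent.P8H11.DS
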